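import Pool.Agent.Helper62.NT.Goals

/-!
PROJECT NT (MP_8ff381_an), packet TB (helper73): the pieces are totally bounded.
-/

set_option autoImplicit false

noncomputable section

namespace Pool.Agent.Helper73.NT.TB

open Filter Topology
open Pool.Agent.Helper62.NT

variable {H : Type} [MetricSpace H]

theorem s_pos (D : CD H) (n : ℕ) : 0 < D.s n := by
  have hB : (0 : ℝ) < D.B := by
    have := D.hB
    exact_mod_cast (by omega : 0 < D.B)
  exact div_pos D.hΔ (pow_pos hB n)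

theorem s_scale (D : CD H) (n m : ℕ) (h : n ≤ m) : D.s n = ((D.B ^ (m - n) : ℕ) : ℝ) * D.s m := by
  have hB : (D.B : ℝ) ≠ 0 := by
    have := D.hB
    exact_mod_cast (by omega : D.B ≠ 0)
  unfold CD.s
  push_cast
  have : (D.B : ℝ) ^ m = (D.B : ℝ) ^ (m - n) * (D.B : ℝ) ^ n := by
    rw [← pow_add]
    congr 1
    omega
  rw [this]
  field_simp

/-- the node set of level `j` -/
def AA (D : CD H) (n m k₀ j : ℕ) (v : H) : Set H :=
  {q | D.conn v q ∧ D.R.dep q ≤ D.R.dep v + D.s n ∧ D.R.dep q = ((k₀ + j : ℕ) : ℝ) * D.s m ∧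
    ∃ y, D.R.le q y ∧ ((k₀ + j + 1 : ℕ) : ℝ) * D.s m ≤ D.R.dep y}

theorem AA_fin (hR : S_RTB) (hL : S_LOC) (hF : S_FINB) (D : CD H) (n m k₀ : ℕ) (hm : 1 ≤ m) (hk : 1 ≤ k₀) (v : H)
    (hv : D.R.dep v = (k₀ : ℝ) * D.s m) (j : ℕ) : (AA D n m k₀ j v).Finite := by
  obtain ⟨r1, r2, r3, r4, r5, r6, r7, r8, r9, r10, r11⟩ := hR H D.R
  obtain ⟨l1, l2, l3⟩ := hL H D
  have hs := s_pos D m
  induction j with
  | zero =>
    refine (Set.finite_singleton v).subset ?_
    rintro q ⟨hc, -, hd, -⟩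
    have h1 : D.R.le v q := hc.1
    have h2 : D.R.dep v = D.R.dep q := by
      rw [hv, hd]
      simp
    have h3 := h1.2
    rw [h2, D.R.res_dep] at h3
    exact h3
  | succ j ih =>
    have hsub : AA D n m k₀ (j + 1) v ⊆ ⋃ q' ∈ AA D n m k₀ j v,
        {q : H | D.conn q' q ∧ D.R.dep q = ((k₀ + j : ℕ) + 1) * D.s m ∧
          ∃ y, D.R.le q y ∧ ((k₀ + j : ℕ) + 2) * D.s m ≤ D.R.dep y} := by
      rintro q ⟨hc, hle, hd, y, hqy, hy⟩
      have ht0 : 0 ≤ ((k₀ + j : ℕ) : ℝ) * D.s m := by positivity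
      have ht1 : ((k₀ + j : ℕ) : ℝ) * D.s m ≤ D.R.dep q := by
        rw [hd]
        apply mul_le_mul_of_nonneg_right _ hs.le
        exact_mod_cast (by omega : k₀ + j ≤ k₀ + (j + 1))
      obtain ⟨s1, s2, s3⟩ := r3 q _ ht0 ht1
      have hdq := D.R.dep_res q _ ht0 ht1
      have hvq' : D.R.le v (D.R.res q (((k₀ + j : ℕ) : ℝ) * D.s m)) := by
        refine r7 v _ q hc.1 s1 ?_
        rw [hdq, hv]
        apply mul_le_mul_of_nonneg_right _ hs.le
        exact_mod_cast (by omega : k₀ ≤ k₀ + j)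
      obtain ⟨c1, c2⟩ := l3 v _ q hc hvq' s1
      refine Set.mem_biUnion (x := D.R.res q (((k₀ + j : ℕ) : ℝ) * D.s m)) ⟨c1, ?_, hdq, q, s1, ?_⟩
        ⟨c2, ?_, y, hqy, ?_⟩
      · rw [hdq]
        exact ht1.trans hle
      · rw [hd]
        exact le_of_eq (by push_cast; ring)
      · rw [hd]
        push_cast
        ring
      · refine le_trans (le_of_eq ?_) hy
        push_cast
        ring
    refine (Set.Finite.biUnion ih ?_).subset hsub
    intro q' hq'
    exact hF H D m (k₀ + j) q' hm (by omega) hq'.2.2.1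

theorem t (hR : S_RTB) (hL : S_LOC) (hF : S_FINB) : S_TB := by
  intro H _ D n k v hn hk hv
  obtain ⟨r1, r2, r3, r4, r5, r6, r7, r8, r9, r10, r11⟩ := hR H D.R
  obtain ⟨l1, l2, l3⟩ := hL H D
  rw [Metric.totallyBounded_iff]
  intro ε hε
  -- choose the scale
  have hBr : (1 : ℝ) < D.B := by
    have := D.hB
    exact_mod_cast (by omega : 1 < D.B)
  have hB0 : (0 : ℝ) < D.B := by linarith
  obtain ⟨m₀, hm₀⟩ : ∃ m₀ : ℕ, 2 * D.Δ / ε < (D.B : ℝ) ^ m₀ := pow_unbounded_of_one_lt _ hBr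
  obtain ⟨m, hmdef⟩ : ∃ m, m = max m₀ n := ⟨_, rfl⟩
  have hmn : n ≤ m := by omega
  have hsm : 2 * D.s m < ε := by
    have h1 : (D.B : ℝ) ^ m₀ ≤ (D.B : ℝ) ^ m := pow_le_pow_right₀ hBr.le (by omega)
    have h2 : 2 * D.Δ / ε < (D.B : ℝ) ^ m := lt_of_lt_of_le hm₀ h1
    have h3 : (0 : ℝ) < (D.B : ℝ) ^ m := pow_pos hB0 m
    rw [div_lt_iff₀ hε] at h2
    unfold CD.s
    rw [← mul_div_assoc, div_lt_iff₀ h3]
    linarith
  have hs := s_pos D m
  have hsc := s_scale D n m hmn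
  obtain ⟨b, hb⟩ : ∃ b : ℕ, b = D.B ^ (m - n) := ⟨_, rfl⟩
  rw [← hb] at hsc
  have hb1 : 1 ≤ b := by
    rw [hb]
    exact Nat.one_le_pow _ _ (by have := D.hB; omega)
  have hk₀ : 1 ≤ k * b := Nat.mul_pos hk hb1
  have hvm : D.R.dep v = ((k * b : ℕ) : ℝ) * D.s m := by
    rw [hv, hsc]
    push_cast
    ring
  refine ⟨{v} ∪ ⋃ j ∈ Finset.range (b + 1), AA D n m (k * b) j v, ?_, ?_⟩
  · refine (Set.finite_singleton v).union ?_
    refine Set.Finite.biUnion (Finset.finite_toSet _) ?_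
    intro j _
    exact AA_fin hR hL hF D n m (k * b) (by omega) hk₀ v hvm j
  · rintro p ⟨hpd, hpc⟩
    have hvp : D.R.dep v ≤ D.R.dep p := hpc.1.1
    have hv0 : 0 ≤ D.R.dep v := (r1 v).1
    obtain ⟨N, hN⟩ : ∃ N, N = ⌊D.R.dep p / D.s m⌋₊ := ⟨_, rfl⟩
    have hp0 : 0 ≤ D.R.dep p := (r1 p).1
    have hN1 : (N : ℝ) * D.s m ≤ D.R.dep p := by
      rw [hN, ← le_div_iff₀ hs]
      exact Nat.floor_le (by positivity)
    have hN2 : D.R.dep p < (N + 1 : ℝ) * D.s m := by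
      rw [hN, ← div_lt_iff₀ hs]
      exact Nat.lt_floor_add_one _
    have hN3 : k * b ≤ N := by
      rw [hN]
      apply Nat.le_floor
      rw [le_div_iff₀ hs, ← hvm]
      exact hvp
    have hN4 : N ≤ k * b + b := by
      have h1 : (N : ℝ) * D.s m ≤ ((k * b + b : ℕ) : ℝ) * D.s m := by
        refine hN1.trans (hpd.trans ?_)
        rw [hvm, hsc]
        push_cast
        linarith
      have h2 := le_of_mul_le_mul_right h1 hs
      exact_mod_cast h2
    obtain ⟨j, hj⟩ : ∃ j, N = k * b + j := ⟨N - k * b, by omega⟩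
    rcases Nat.eq_zero_or_pos j with hj0 | hj0
    · -- close to v
      refine Set.mem_biUnion (x := v) (Or.inl rfl) ?_
      rw [Metric.mem_ball]
      obtain ⟨s1, s2, s3⟩ := r3 p (D.R.dep v) hv0 hvp
      have h4 : D.R.res p (D.R.dep v) = v := hpc.1.2
      rw [h4] at s3
      rw [s3, hvm]
      rw [hj, hj0] at hN2
      push_cast at hN2 ⊢
      have h5 : ((k : ℝ) * b + 0 + 1) * D.s m = (k : ℝ) * b * D.s m + D.s m := by ring
      rw [h5] at hN2
      linarith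
    · obtain ⟨i, rfl⟩ : ∃ i, j = i + 1 := ⟨j - 1, by omega⟩
      have ht0 : 0 ≤ ((k * b + i : ℕ) : ℝ) * D.s m := by positivity
      have ht1 : ((k * b + i : ℕ) : ℝ) * D.s m ≤ D.R.dep p := by
        refine le_trans ?_ hN1
        apply mul_le_mul_of_nonneg_right _ hs.le
        exact_mod_cast (by omega : k * b + i ≤ N)
      obtain ⟨s1, s2, s3⟩ := r3 p _ ht0 ht1
      have hdq := D.R.dep_res p _ ht0 ht1
      have hvq' : D.R.le v (D.R.res p (((k * b + i : ℕ) : ℝ) * D.s m)) := by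
        refine r7 v _ p hpc.1 s1 ?_
        rw [hdq, hvm]
        apply mul_le_mul_of_nonneg_right _ hs.le
        exact_mod_cast (by omega : k * b ≤ k * b + i)
      obtain ⟨c1, c2⟩ := l3 v _ p hpc hvq' s1
      refine Set.mem_biUnion (x := D.R.res p (((k * b + i : ℕ) : ℝ) * D.s m)) (Or.inr ?_) ?_
      · refine Set.mem_biUnion (x := i) (Finset.mem_coe.2 (Finset.mem_range.2 (by omega))) ⟨c1, ?_, hdq, p, s1, ?_⟩
        · rw [hdq]
          exact ht1.trans hpd
        · refine le_trans (le_of_eq ?_) hN1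
          rw [hj]
          push_cast
          ring
      · rw [Metric.mem_ball, s3]
        rw [hj] at hN2
        push_cast at hN2 ⊢
        have h5 : ((k : ℝ) * b + (i + 1) + 1) * D.s m = ((k : ℝ) * b + i) * D.s m + 2 * D.s m := by ring
        rw [h5] at hN2
        linarith

end Pool.Agent.Helper73.NT.TB
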